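import Pool.Agent.helper18.KBR3.FbLin

/-!
# Module A5: the boundary isometry `F` is parallel along the boundary
-/

noncomputable section

namespace KBR

open Set MeasureTheory Filter Topology
open scoped ContDiff RealInnerProductSpace

variable {n : ℕ}

namespace AF

/-- a function which is zero on the sphere has zero derivative in tangential directions -/
lemma fderiv_zero_tangent {W : Type*} [NormedAddCommGroup W] [NormedSpace ℝ W] {h : E n → W}
    {a u : E n} (ha : a ∈ bM n) (hd : DifferentiableAt ℝ h a) (h0 : ∀ x ∈ bM n, h x = 0)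
    (hu : ⟪a, u⟫ = 0) : fderiv ℝ h a u = 0 := by
  have han : ‖a‖ = 1 := by simpa [bM] using ha
  by_cases hv : u = 0
  · simp [hv]
  have hvn : ‖u‖ ≠ 0 := norm_ne_zero_iff.mpr hv
  have e1 : ‖(‖u‖)⁻¹ • u‖ = 1 := by
    rw [norm_smul, norm_inv, norm_norm, inv_mul_cancel₀ hvn]
  have e2 : ⟪a, (‖u‖)⁻¹ • u⟫ = 0 := by rw [inner_smul_right, hu, mul_zero]
  set w := (‖u‖)⁻¹ • u with hw
  have hb : ∀ s, BQ.gc a w s ∈ bM n := fun s => by simp [bM, BQ.gc_norm han e1 e2 s]
  have h1 : HasFDerivAt h (fderiv ℝ h a) (BQ.gc a w 0) := by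
    rw [BQ.gc_zero]
    exact hd.hasFDerivAt
  have h2 : HasDerivAt (h ∘ BQ.gc a w) (fderiv ℝ h a w) 0 :=
    h1.comp_hasDerivAt 0 (BQ.gc_deriv a w)
  have h3 : h ∘ BQ.gc a w = fun _ => 0 := by
    funext s
    exact h0 _ (hb s)
  rw [h3] at h2
  have h4 : fderiv ℝ h a w = 0 := h2.unique (hasDerivAt_const 0 (0 : W))
  rw [hw, map_smul] at h4
  exact (smul_eq_zero.mp h4).resolve_left (inv_ne_zero hvn)

/-- evaluation of a bilinear form -/
def ev (u v : E n) : (E n →L[ℝ] E n) →L[ℝ] ℝ :=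
  (innerSL ℝ v).comp (ContinuousLinearMap.apply ℝ (E n) u)

lemma ev_apply (u v : E n) (A : E n →L[ℝ] E n) : ev u v A = ⟪A u, v⟫ := by
  simp [ev, real_inner_comm]

/-- symmetry of the derivative of a metric -/
lemma fderiv_symm {G : E n → E n →L[ℝ] E n} (hG : IsMetric G) {x : E n} (hx : x ∈ M n)
    (w u v : E n) : ⟪fderiv ℝ G x w u, v⟫ = ⟪fderiv ℝ G x w v, u⟫ := by
  -- the closed ball is the closure of the open ball
  have key : ∀ y ∈ Metric.ball (0 : E n) 1, ⟪fderiv ℝ G y w u, v⟫ = ⟪fderiv ℝ G y w v, u⟫ := by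
    intro y hy
    have d1 : HasFDerivAt G (fderiv ℝ G y) y :=
      (hG.smooth.differentiable (by simp) y).hasFDerivAt
    have d2 : HasFDerivAt (fun z => ev u v (G z)) ((ev u v).comp (fderiv ℝ G y)) y :=
      (ev u v).hasFDerivAt.comp y d1
    have d3 : HasFDerivAt (fun z => ev v u (G z)) ((ev v u).comp (fderiv ℝ G y)) y :=
      (ev v u).hasFDerivAt.comp y d1
    have d4 : HasFDerivAt (fun z => ev u v (G z)) ((ev v u).comp (fderiv ℝ G y)) y := by
      refine d3.congr_of_eventuallyEq ?_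
      filter_upwards [Metric.isOpen_ball.mem_nhds hy] with z hz
      rw [ev_apply, ev_apply]
      exact hG.symm z (Metric.ball_subset_closedBall hz) u v
    have h5 := congrArg (fun A : E n →L[ℝ] ℝ => A w) (d2.unique d4)
    simpa only [ContinuousLinearMap.comp_apply, ev_apply] using h5
  have hcl : IsClosed {y : E n | ⟪fderiv ℝ G y w u, v⟫ = ⟪fderiv ℝ G y w v, u⟫} := by
    have hc : Continuous (fderiv ℝ G) := hG.smooth.continuous_fderiv (by simp)
    apply isClosed_eq
    · exact ((hc.clm_apply continuous_const).clm_apply continuous_const).inner continuous_const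
    · exact ((hc.clm_apply continuous_const).clm_apply continuous_const).inner continuous_const
  have h6 : closure (Metric.ball (0 : E n) 1) ⊆
      {y : E n | ⟪fderiv ℝ G y w u, v⟫ = ⟪fderiv ℝ G y w v, u⟫} :=
    closure_minimal key hcl
  rw [closure_ball (0 : E n) one_ne_zero] at h6
  exact h6 hx

/-- symmetry of the Christoffel symbols -/
lemma chr_symm {G : E n → E n →L[ℝ] E n} (hG : IsMetric G) {x : E n} (hx : x ∈ M n)
    (u v : E n) : chr G x u v = chr G x v u := by
  have h1 : ∀ w, ⟪G x (chr G x u v), w⟫ = ⟪G x (chr G x v u), w⟫ := by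
    intro w
    rw [chr_inner hG hx, chr_inner hG hx, fderiv_symm hG hx w u v]
    ring
  have h2 : G x (chr G x u v) = G x (chr G x v u) := ext_inner_right ℝ h1
  rw [← hG.inv_apply hx (chr G x u v), h2, hG.inv_apply hx]

/-- the Levi-Civita connection is metric -/
lemma chr_metric {G : E n → E n →L[ℝ] E n} (hG : IsMetric G) {x : E n} (hx : x ∈ M n)
    (u v w : E n) : ⟪fderiv ℝ G x u v, w⟫ = ⟪G x (chr G x u v), w⟫ + ⟪G x v, chr G x u w⟫ := by
  rw [hG.symm x hx v (chr G x u w), chr_inner hG hx, chr_inner hG hx,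
    fderiv_symm hG hx u w v, fderiv_symm hG hx w u v, fderiv_symm hG hx v u w]
  ring

end AF

open AF in
/-- MODULE A5 (`conn_par`): `F` is parallel along the boundary. -/
theorem conn_par {G₁ G₂ : E n → E n →L[ℝ] E n} (h₁ : IsMetric G₁) (h₂ : IsMetric G₂)
    (ht : ∀ a ∈ bM n, ∀ u v, ⟪a, u⟫ = 0 → ⟪a, v⟫ = 0 → ⟪G₁ a u, v⟫ = ⟪G₂ a u, v⟫)
    (hj : ∀ a ∈ bM n, ∀ w, ‖w‖ = 1 → ⟪a, w⟫ = 0 →
      Fb G₁ G₂ a (chr G₁ a w w - a) = chr G₂ a w w - a) :
    ∀ a ∈ bM n, ∀ u, ⟪a, u⟫ = 0 → ∀ v,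
      fderiv ℝ (Fb G₁ G₂) a u v + chr G₂ a u (Fb G₁ G₂ a v) = Fb G₁ G₂ a (chr G₁ a u v) := by
  intro a ha u hu
  have haM := bM_sub_M ha
  have han : ‖a‖ = 1 := by simpa [bM] using ha
  set F : E n →L[ℝ] E n := Fb G₁ G₂ a with hF
  set D : E n →L[ℝ] E n := fderiv ℝ (Fb G₁ G₂) a u with hD
  set A : E n →L[ℝ] E n := chr G₁ a u with hA
  set B : E n →L[ℝ] E n := chr G₂ a u with hB
  set T : E n →L[ℝ] E n := D + B.comp F - F.comp A with hT
  suffices h : ∀ v, T v = 0 by
    intro v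
    have h1 := h v
    simp only [hT, sub_apply, add_apply, ContinuousLinearMap.comp_apply] at h1
    exact sub_eq_zero.mp h1
  -- isometry
  have his : ∀ v w, ⟪G₂ a (F v), F w⟫ = ⟪G₁ a v, w⟫ := Fb_isom h₁ h₂ ha (ht a ha)
  -- `F` on tangential vectors
  have hFt : ∀ w, ⟪a, w⟫ = 0 → F w = w := by
    intro w hw
    rw [hF, Fb_apply, hw]
    simp
  -- the diagonal identity for all tangential vectors
  have hdiag : ∀ w, ⟪a, w⟫ = 0 →
      F (chr G₁ a w w) - chr G₂ a w w = ⟪w, w⟫ • (F a - a) := by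
    intro w hw
    by_cases hw0 : w = 0
    · subst hw0
      simp
    have hwn : ‖w‖ ≠ 0 := norm_ne_zero_iff.mpr hw0
    have e1 : ‖(‖w‖)⁻¹ • w‖ = 1 := by
      rw [norm_smul, norm_inv, norm_norm, inv_mul_cancel₀ hwn]
    have e2 : ⟪a, (‖w‖)⁻¹ • w⟫ = 0 := by rw [inner_smul_right, hw, mul_zero]
    have e3 := hj a ha _ e1 e2
    have e4 : ∀ G : E n → E n →L[ℝ] E n, IsMetric G →
        chr G a ((‖w‖)⁻¹ • w) ((‖w‖)⁻¹ • w) = ((‖w‖)⁻¹ ^ 2) • chr G a w w := by
      intro G hG
      rw [map_smul, chr_symm hG haM, map_smul, smul_smul, sq]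
    rw [e4 G₁ h₁, e4 G₂ h₂, map_sub, map_smul, ← hF] at e3
    have e5 : ((‖w‖)⁻¹ ^ 2) • (F (chr G₁ a w w) - chr G₂ a w w) = F a - a := by
      rw [smul_sub]
      rw [sub_eq_sub_iff_add_eq_add] at e3 ⊢
      rw [add_comm (F a), ← e3]
    rw [← e5, smul_smul, real_inner_self_eq_norm_sq]
    have : ‖w‖ ^ 2 * ‖w‖⁻¹ ^ 2 = 1 := by
      rw [← mul_pow, mul_inv_cancel₀ hwn, one_pow]
    rw [this, one_smul]
  -- polarisation
  have hpol : ∀ w, ⟪a, w⟫ = 0 → F (A w) - B w = ⟪u, w⟫ • (F a - a) := by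
    intro w hw
    have e1 := hdiag (u + w) (by rw [inner_add_right, hu, hw, add_zero])
    have e2 := hdiag u hu
    have e3 := hdiag w hw
    have e4 : ∀ G : E n → E n →L[ℝ] E n, IsMetric G →
        chr G a (u + w) (u + w) = chr G a u u + (2 : ℝ) • chr G a u w + chr G a w w := by
      intro G hG
      have l1 : ∀ z : E n, chr G a (u + w) z = chr G a u z + chr G a w z := by
        intro z
        rw [chr_symm hG haM, map_add, chr_symm hG haM z u, chr_symm hG haM z w]
      rw [l1, map_add, map_add, chr_symm hG haM w u, two_smul]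
      abel
    rw [e4 G₁ h₁, e4 G₂ h₂, map_add, map_add, map_smul, ← hA, ← hB] at e1
    have e5 : ⟪u + w, u + w⟫ = ⟪u, u⟫ + 2 * ⟪u, w⟫ + ⟪w, w⟫ := by
      rw [inner_add_left, inner_add_right, inner_add_right, real_inner_comm u w]
      ring
    rw [e5, add_smul, add_smul, ← e2, ← e3] at e1
    have e6 : (2 : ℝ) • (F (A w) - B w) = (2 : ℝ) • (⟪u, w⟫ • (F a - a)) := by
      rw [smul_smul, smul_sub]
      have : (2 * ⟪u, w⟫) • (F a - a) = F (A u) + (2 : ℝ) • F (A w) + F (chr G₁ a w w) -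
          (B u + (2 : ℝ) • B w + chr G₂ a w w) - (F (A u) - B u) -
          (F (chr G₁ a w w) - chr G₂ a w w) := by
        rw [e1]
        abel
      rw [this]
      abel
    exact smul_right_injective _ (two_ne_zero) e6
  -- the derivative of `F` on tangential vectors
  have dFb : ∀ v, HasDerivAt (fun s : ℝ => Fb G₁ G₂ (a + s • u) v) (D v) 0 := by
    intro v
    have h3 : HasFDerivAt (Fb G₁ G₂) (fderiv ℝ (Fb G₁ G₂) a) (a + (0 : ℝ) • u) := by
      rw [zero_smul, add_zero]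
      exact ((Fb_smooth h₁ h₂ ha).differentiableAt (by simp)).hasFDerivAt
    have h4 : HasDerivAt (fun s : ℝ => a + s • u) u 0 := by
      have := ((hasDerivAt_id (0 : ℝ)).smul_const u).const_add a
      rwa [one_smul] at this
    have h5 := h3.comp_hasDerivAt (0 : ℝ) h4
    exact (ContinuousLinearMap.apply ℝ (E n) v).hasFDerivAt.comp_hasDerivAt (0 : ℝ) h5
  have hDt : ∀ w, ⟪a, w⟫ = 0 → D w = ⟪u, w⟫ • (F a - a) := by
    intro w hw
    have h3 : ∀ s : ℝ, Fb G₁ G₂ (a + s • u) w =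
        w + (s * ⟪u, w⟫) • (Fb G₁ G₂ (a + s • u) a - a) := by
      intro s
      rw [Fb_apply, Fb_apply, inner_add_left, inner_add_left, inner_smul_left, inner_smul_left,
        hw, real_inner_comm a u, hu, real_inner_self_eq_norm_sq, han]
      simp only [RCLike.conj_to_real, zero_add, mul_zero, add_zero, one_pow, mul_one,
        add_sub_cancel_left, smul_smul]
      congr 2
      ring
    have h4 : HasDerivAt (fun s : ℝ => w + (s * ⟪u, w⟫) • (Fb G₁ G₂ (a + s • u) a - a))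
        (((0 : ℝ) * ⟪u, w⟫) • D a + (1 * ⟪u, w⟫) • (Fb G₁ G₂ (a + (0 : ℝ) • u) a - a)) 0 :=
      ((((hasDerivAt_id (0 : ℝ)).mul_const ⟪u, w⟫).smul ((dFb a).sub_const a))).const_add w
    have h5 := dFb w
    rw [show (fun s : ℝ => Fb G₁ G₂ (a + s • u) w) =
      fun s : ℝ => w + (s * ⟪u, w⟫) • (Fb G₁ G₂ (a + s • u) a - a) from funext h3] at h5
    rw [h5.unique h4, zero_mul, zero_smul, zero_add, one_mul, zero_smul, add_zero]
  have hTt : ∀ w, ⟪a, w⟫ = 0 → T w = 0 := by
    intro w hw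
    simp only [hT, sub_apply, add_apply, ContinuousLinearMap.comp_apply]
    rw [hFt w hw, hDt w hw, ← hpol w hw]
    abel
  -- `T` is skew
  have hskew : ∀ v w, ⟪G₂ a (T v), F w⟫ + ⟪G₂ a (F v), T w⟫ = 0 := by
    intro v w
    have dF0 : DifferentiableAt ℝ (Fb G₁ G₂) a := (Fb_smooth h₁ h₂ ha).differentiableAt (by simp)
    have dG₁ : DifferentiableAt ℝ G₁ a := h₁.smooth.differentiable (by simp) a
    have dG₂ : DifferentiableAt ℝ G₂ a := h₂.smooth.differentiable (by simp) a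
    have dh : DifferentiableAt ℝ (fun x => ⟪G₂ x (Fb G₁ G₂ x v), Fb G₁ G₂ x w⟫ - ⟪G₁ x v, w⟫) a :=
      ((dG₂.clm_apply (dF0.clm_apply (differentiableAt_const v))).inner ℝ
        (dF0.clm_apply (differentiableAt_const w))).sub
        ((dG₁.clm_apply (differentiableAt_const v)).inner ℝ (differentiableAt_const w))
    have h3 := fderiv_zero_tangent ha dh
      (fun x hx => sub_eq_zero.mpr (Fb_isom h₁ h₂ hx (ht x hx) v w)) hu
    have dl : HasDerivAt (fun s : ℝ => a + s • u) u 0 := by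
      have := ((hasDerivAt_id (0 : ℝ)).smul_const u).const_add a
      rwa [one_smul] at this
    have a0 : a + (0 : ℝ) • u = a := by rw [zero_smul, add_zero]
    have e1 : HasDerivAt (fun s : ℝ => ⟪G₂ (a + s • u) (Fb G₁ G₂ (a + s • u) v),
        Fb G₁ G₂ (a + s • u) w⟫ - ⟪G₁ (a + s • u) v, w⟫) 0 0 := by
      have h4 := (a0.symm ▸ dh.hasFDerivAt : HasFDerivAt
        (fun x => ⟪G₂ x (Fb G₁ G₂ x v), Fb G₁ G₂ x w⟫ - ⟪G₁ x v, w⟫)
        (fderiv ℝ (fun x => ⟪G₂ x (Fb G₁ G₂ x v), Fb G₁ G₂ x w⟫ - ⟪G₁ x v, w⟫) a)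
        (a + (0 : ℝ) • u)).comp_hasDerivAt (0 : ℝ) dl
      rw [h3] at h4
      exact h4
    have dG : ∀ G : E n → E n →L[ℝ] E n, IsMetric G →
        HasDerivAt (fun s : ℝ => G (a + s • u)) (fderiv ℝ G a u) 0 := by
      intro G hG
      have h4 : HasFDerivAt G (fderiv ℝ G a) (a + (0 : ℝ) • u) := by
        rw [a0]
        exact (hG.smooth.differentiable (by simp) a).hasFDerivAt
      exact h4.comp_hasDerivAt (0 : ℝ) dl
    have e2 := ((((dG G₂ h₂).clm_apply (dFb v)).inner ℝ (dFb w)).sub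
      (((dG G₁ h₁).clm_apply (hasDerivAt_const (0 : ℝ) v)).inner ℝ (hasDerivAt_const (0 : ℝ) w)))
    have e3 := e2.unique e1
    simp only [a0, ← hF, inner_zero_right, map_zero, add_zero, zero_add] at e3
    have m1 := chr_metric h₁ haM u v w
    have m2 := chr_metric h₂ haM u (F v) (F w)
    rw [← hA] at m1
    rw [← hB] at m2
    rw [m1, inner_add_left, m2, ← his (A v) w, ← his v (A w)] at e3
    simp only [hT, sub_apply, add_apply, ContinuousLinearMap.comp_apply, map_sub, map_add,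
      inner_add_left, inner_sub_left, inner_add_right, inner_sub_right]
    linarith
  -- `F` is surjective
  have hsurj : Function.Surjective F := by
    have hinj : Function.Injective (F : E n →ₗ[ℝ] E n) := by
      rw [injective_iff_map_eq_zero]
      intro v hv
      by_contra hne
      have h3 := h₁.pos a haM v hne
      rw [← his v v] at h3
      have h4 : F v = 0 := hv
      rw [h4, map_zero, inner_zero_left] at h3
      exact lt_irrefl _ h3
    exact LinearMap.surjective_of_injective hinj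
  have hTa : T a = 0 := by
    have h3 : ∀ w, ⟪G₂ a (T a), F w⟫ = 0 := by
      intro w
      have e1 : ⟪G₂ a (T a), F a⟫ = 0 := by
        have := hskew a a
        rw [h₂.symm a haM (F a) (T a)] at this
        linarith
      have e2 : w = (w - ⟪a, w⟫ • a) + ⟪a, w⟫ • a := by abel
      have e3 : ⟪a, w - ⟪a, w⟫ • a⟫ = 0 := by
        rw [inner_sub_right, inner_smul_right, real_inner_self_eq_norm_sq, han]
        ring
      have e4 : ⟪G₂ a (T a), F (w - ⟪a, w⟫ • a)⟫ = 0 := by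
        have := hskew a (w - ⟪a, w⟫ • a)
        rw [hTt _ e3, inner_zero_right, add_zero] at this
        exact this
      rw [e2, map_add, inner_add_right, e4, map_smul, inner_smul_right, e1]
      ring
    by_contra hne
    have h4 := h₂.pos a haM (T a) hne
    obtain ⟨w, hw⟩ := hsurj (T a)
    rw [← hw] at h4
    have h5 := h3 w
    rw [← hw] at h5
    linarith
  intro v
  have e2 : v = (v - ⟪a, v⟫ • a) + ⟪a, v⟫ • a := by abel
  have e3 : ⟪a, v - ⟪a, v⟫ • a⟫ = 0 := by
    rw [inner_sub_right, inner_smul_right, real_inner_self_eq_norm_sq, han]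
    ring
  rw [e2, map_add, hTt _ e3, map_smul, hTa, smul_zero, add_zero]

end KBR
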