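import Pool.Agent.helper18.KBR3.FbLin

/-!
# Module A6: parallel transport of the compatibility of the complex structures
-/

noncomputable section

namespace KBR

open Set MeasureTheory Filter Topology
open scoped ContDiff RealInnerProductSpace

variable {n : ℕ}

namespace AF

/-- derivative of the great circle -/
def gd (a w : E n) (s : ℝ) : E n := -Real.sin s • a + Real.cos s • w

lemma gc_hasDerivAt (a w : E n) (s : ℝ) : HasDerivAt (BQ.gc a w) (gd a w s) s :=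
  ((Real.hasDerivAt_cos s).smul_const a).add ((Real.hasDerivAt_sin s).smul_const w)

lemma gd_perp {a w : E n} (ha : ‖a‖ = 1) (hw : ‖w‖ = 1) (haw : ⟪a, w⟫ = 0) (s : ℝ) :
    ⟪BQ.gc a w s, gd a w s⟫ = 0 := by
  rw [BQ.gc, gd]
  simp only [inner_add_left, inner_add_right, inner_smul_left, inner_smul_right,
    RCLike.conj_to_real, real_inner_self_eq_norm_sq, ha, hw, real_inner_comm a w, haw]
  ring

lemma gc_continuous (a w : E n) : Continuous (BQ.gc a w) := by
  unfold BQ.gc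
  fun_prop

lemma gd_continuous (a w : E n) : Continuous (gd a w) := by
  unfold gd
  fun_prop

lemma gc_mem {a w : E n} (ha : ‖a‖ = 1) (hw : ‖w‖ = 1) (haw : ⟪a, w⟫ = 0) (s : ℝ) :
    BQ.gc a w s ∈ bM n := by simp [bM, BQ.gc_norm ha hw haw s]

lemma chr_continuous {G : E n → E n →L[ℝ] E n} (hG : IsMetric G) {g h : ℝ → E n}
    (hg : Continuous g) (hh : Continuous h) (hM : ∀ s, g s ∈ M n) :
    Continuous (fun s => chr G (g s) (h s)) := by
  have h0 : Continuous (fun s => (G (g s)).inverse) := by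
    rw [continuous_iff_continuousAt]
    intro s
    exact ContinuousAt.comp (f := g) (g := fun y => (G y).inverse)
      (hG.contDiffAt_inv (hM s)).continuousAt hg.continuousAt
  have h1 : Continuous (fun s => fderiv ℝ G (g s)) :=
    (hG.smooth.continuous_fderiv (by simp)).comp hg
  have h2 : Continuous (fun s => fderiv ℝ G (g s) (h s)) := h1.clm_apply hh
  have h3 : Continuous (fun s => (fderiv ℝ G (g s)).flip (h s)) :=
    ((ContinuousLinearMap.flipₗᵢ ℝ (E n) (E n) (E n)).continuous.comp h1).clm_apply hh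
  have h4 : Continuous (fun s => ContinuousLinearMap.adjoint ((fderiv ℝ G (g s)).flip (h s))) :=
    (ContinuousLinearMap.adjoint (𝕜 := ℝ) (E := E n) (F := E n)).continuous.comp h3
  unfold chr
  exact h0.clm_comp (((h2.add h3).sub h4).const_smul (1 / 2 : ℝ))

/-- every point of the sphere lies on a great circle through `p` -/
lemma exists_gc (hn : 2 ≤ n) {p x : E n} (hp : ‖p‖ = 1) (hx : ‖x‖ = 1) :
    ∃ w s, ‖w‖ = 1 ∧ ⟪p, w⟫ = 0 ∧ 0 ≤ s ∧ BQ.gc p w s = x := by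
  set c : ℝ := ⟪p, x⟫ with hc
  have hc1 : |c| ≤ 1 := by
    have := abs_real_inner_le_norm p x
    rwa [hp, hx, mul_one] at this
  have hc2 : -1 ≤ c ∧ c ≤ 1 := abs_le.mp hc1
  set y : E n := x - c • p with hy
  have hpy : ⟪p, y⟫ = 0 := by
    rw [hy, inner_sub_right, inner_smul_right, real_inner_self_eq_norm_sq, hp, ← hc]
    ring
  have hy2 : ‖y‖ ^ 2 = 1 - c ^ 2 := by
    rw [← real_inner_self_eq_norm_sq]
    have h1 : ⟪y, y⟫ = ⟪y, x⟫ := by
      conv_lhs => rw [hy, inner_sub_right, inner_smul_right, ← hy, real_inner_comm p y, hpy]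
      ring
    rw [h1, hy, inner_sub_left, inner_smul_left, real_inner_self_eq_norm_sq, hx, ← hc]
    simp
    ring
  have hyn : Real.sin (Real.arccos c) = ‖y‖ := by
    rw [Real.sin_arccos, ← hy2, Real.sqrt_sq (norm_nonneg _)]
  by_cases h0 : y = 0
  · obtain ⟨w, hw1, hw2⟩ : ∃ w : E n, ‖w‖ = 1 ∧ ⟪p, w⟫ = 0 := by
      have h1 : (Submodule.span ℝ {p})ᗮ ≠ ⊥ := by
        intro h
        rw [Submodule.orthogonal_eq_bot_iff] at h
        have h2 : Module.finrank ℝ (Submodule.span ℝ {p}) = 1 :=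
          finrank_span_singleton (by rw [← norm_ne_zero_iff, hp]; exact one_ne_zero)
        rw [h, finrank_top, finrank_euclideanSpace_fin] at h2
        omega
      obtain ⟨w, hw, hw0⟩ := Submodule.exists_mem_ne_zero_of_ne_bot h1
      have h3 : ⟪p, w⟫ = 0 := (Submodule.mem_orthogonal_singleton_iff_inner_right).mp hw
      refine ⟨(‖w‖)⁻¹ • w, ?_, ?_⟩
      · rw [norm_smul, norm_inv, norm_norm, inv_mul_cancel₀ (norm_ne_zero_iff.mpr hw0)]
      · rw [inner_smul_right, h3, mul_zero]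
    refine ⟨w, Real.arccos c, hw1, hw2, Real.arccos_nonneg c, ?_⟩
    rw [BQ.gc, hyn, h0, norm_zero, Real.cos_arccos hc2.1 hc2.2, zero_smul, add_zero]
    have := sub_eq_zero.mp (hy ▸ h0)
    exact this.symm
  · have hyn0 : ‖y‖ ≠ 0 := norm_ne_zero_iff.mpr h0
    refine ⟨(‖y‖)⁻¹ • y, Real.arccos c, ?_, ?_, Real.arccos_nonneg c, ?_⟩
    · rw [norm_smul, norm_inv, norm_norm, inv_mul_cancel₀ hyn0]
    · rw [inner_smul_right, hpy, mul_zero]
    · rw [BQ.gc, hyn, Real.cos_arccos hc2.1 hc2.2, smul_smul, mul_inv_cancel₀ hyn0, one_smul, hy]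
      abel

end AF

open AF in
/-- MODULE A6 (`par_ode`): parallel transport of the compatibility of the complex structures. -/
theorem par_ode (hn : 2 ≤ n) {G₁ G₂ J₁ J₂ : E n → E n →L[ℝ] E n} (h₁ : IsMetric G₁)
    (h₂ : IsMetric G₂) (s₁ : ContDiff ℝ ∞ J₁) (s₂ : ContDiff ℝ ∞ J₂)
    (hF : ∀ a ∈ bM n, ∀ u, ⟪a, u⟫ = 0 → ∀ v,
      fderiv ℝ (Fb G₁ G₂) a u v + chr G₂ a u (Fb G₁ G₂ a v) = Fb G₁ G₂ a (chr G₁ a u v))
    (p₁ : Par G₁ J₁) (p₂ : Par G₂ J₂) {p : E n} (hp : p ∈ bM n)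
    (hal : ∀ v, Fb G₁ G₂ p (J₁ p v) = J₂ p (Fb G₁ G₂ p v)) :
    ∀ x ∈ bM n, ∀ v, Fb G₁ G₂ x (J₁ x v) = J₂ x (Fb G₁ G₂ x v) := by
  intro x hx
  have hpn : ‖p‖ = 1 := by simpa [bM] using hp
  have hxn : ‖x‖ = 1 := by simpa [bM] using hx
  obtain ⟨w, T, hw, hpw, hT, hgx⟩ := exists_gc hn hpn hxn
  set g : ℝ → E n := BQ.gc p w with hg
  have hgb : ∀ s, g s ∈ bM n := fun s => gc_mem hpn hw hpw s
  have hgM : ∀ s, g s ∈ M n := fun s => bM_sub_M (hgb s)
  set c₁ : ℝ → E n →L[ℝ] E n := fun s => chr G₁ (g s) (gd p w s) with hc₁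
  set c₂ : ℝ → E n →L[ℝ] E n := fun s => chr G₂ (g s) (gd p w s) with hc₂
  have hc₁c : Continuous c₁ := chr_continuous h₁ (gc_continuous p w) (gd_continuous p w) hgM
  have hc₂c : Continuous c₂ := chr_continuous h₂ (gc_continuous p w) (gd_continuous p w) hgM
  set F : ℝ → E n →L[ℝ] E n := fun s => Fb G₁ G₂ (g s) with hFd
  set Z : ℝ → E n →L[ℝ] E n := fun s => (F s).comp (J₁ (g s)) - (J₂ (g s)).comp (F s) with hZ
  have dF : ∀ s, HasDerivAt F ((F s).comp (c₁ s) - (c₂ s).comp (F s)) s := by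
    intro s
    have h1 : HasFDerivAt (Fb G₁ G₂) (fderiv ℝ (Fb G₁ G₂) (g s)) (g s) :=
      ((Fb_smooth h₁ h₂ (hgb s)).differentiableAt (by simp)).hasFDerivAt
    have h2 := h1.comp_hasDerivAt s (gc_hasDerivAt p w s)
    have h3 : fderiv ℝ (Fb G₁ G₂) (g s) (gd p w s) = (F s).comp (c₁ s) - (c₂ s).comp (F s) := by
      ext1 v
      have := hF (g s) (hgb s) (gd p w s) (gd_perp hpn hw hpw s) v
      simp only [sub_apply, ContinuousLinearMap.comp_apply]
      rw [← this]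
      simp only [hFd, hc₂]
      abel
    rw [← h3]
    exact h2
  have dJ₁ : ∀ s, HasDerivAt (fun s => J₁ (g s))
      ((J₁ (g s)).comp (c₁ s) - (c₁ s).comp (J₁ (g s))) s := by
    intro s
    have h1 : HasFDerivAt J₁ (fderiv ℝ J₁ (g s)) (g s) :=
      (s₁.differentiable (by simp) (g s)).hasFDerivAt
    have h2 := h1.comp_hasDerivAt s (gc_hasDerivAt p w s)
    have h3 : fderiv ℝ J₁ (g s) (gd p w s) =
        (J₁ (g s)).comp (c₁ s) - (c₁ s).comp (J₁ (g s)) := by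
      ext1 v
      have := p₁ (g s) (hgM s) (gd p w s) v
      simp only [sub_apply, ContinuousLinearMap.comp_apply]
      rw [← this]
      simp only [hc₁]
      abel
    rw [← h3]
    exact h2
  have dJ₂ : ∀ s, HasDerivAt (fun s => J₂ (g s))
      ((J₂ (g s)).comp (c₂ s) - (c₂ s).comp (J₂ (g s))) s := by
    intro s
    have h1 : HasFDerivAt J₂ (fderiv ℝ J₂ (g s)) (g s) :=
      (s₂.differentiable (by simp) (g s)).hasFDerivAt
    have h2 := h1.comp_hasDerivAt s (gc_hasDerivAt p w s)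
    have h3 : fderiv ℝ J₂ (g s) (gd p w s) =
        (J₂ (g s)).comp (c₂ s) - (c₂ s).comp (J₂ (g s)) := by
      ext1 v
      have := p₂ (g s) (hgM s) (gd p w s) v
      simp only [sub_apply, ContinuousLinearMap.comp_apply]
      rw [← this]
      simp only [hc₂]
      abel
    rw [← h3]
    exact h2
  have dZ : ∀ s, HasDerivAt Z ((Z s).comp (c₁ s) - (c₂ s).comp (Z s)) s := by
    intro s
    have h1 := ((dF s).clm_comp (dJ₁ s)).sub ((dJ₂ s).clm_comp (dF s))
    have h2 : (Z s).comp (c₁ s) - (c₂ s).comp (Z s) =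
        ((F s).comp (c₁ s) - (c₂ s).comp (F s)).comp (J₁ (g s)) +
          (F s).comp ((J₁ (g s)).comp (c₁ s) - (c₁ s).comp (J₁ (g s))) -
        (((J₂ (g s)).comp (c₂ s) - (c₂ s).comp (J₂ (g s))).comp (F s) +
          (J₂ (g s)).comp ((F s).comp (c₁ s) - (c₂ s).comp (F s))) := by
      ext1 v
      simp only [hZ, sub_apply, ContinuousLinearMap.comp_apply, add_apply, map_sub]
      abel
    rw [h2]
    exact h1
  have hZ0 : Z 0 = 0 := by
    ext1 v
    have h0 : g 0 = p := BQ.gc_zero p w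
    simp only [hZ, hFd, sub_apply, ContinuousLinearMap.comp_apply, h0,
      hal v, sub_self, zero_apply]
  obtain ⟨K, hK⟩ : ∃ K : ℝ, ∀ s ∈ Icc 0 T, ‖c₁ s‖ + ‖c₂ s‖ ≤ K := by
    obtain ⟨K, hK⟩ := (isCompact_Icc (a := (0 : ℝ)) (b := T)).bddAbove_image
      (f := fun s => ‖c₁ s‖ + ‖c₂ s‖) (hc₁c.norm.add hc₂c.norm).continuousOn
    exact ⟨K, fun s hs => hK ⟨s, hs, rfl⟩⟩
  have hgr := norm_le_gronwallBound_of_norm_deriv_right_le (f := Z)
    (f' := fun s => (Z s).comp (c₁ s) - (c₂ s).comp (Z s)) (δ := 0) (K := K) (ε := 0)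
    (a := 0) (b := T)
    (fun s _ => (dZ s).continuousAt.continuousWithinAt)
    (fun s _ => (dZ s).hasDerivWithinAt) (by rw [hZ0, norm_zero])
    (fun s hs => by
      have h1 : ‖(Z s).comp (c₁ s) - (c₂ s).comp (Z s)‖ ≤ ‖Z s‖ * ‖c₁ s‖ + ‖c₂ s‖ * ‖Z s‖ :=
        (norm_sub_le _ _).trans (add_le_add (ContinuousLinearMap.opNorm_comp_le _ _)
          (ContinuousLinearMap.opNorm_comp_le _ _))
      have h2 := hK s ⟨hs.1, hs.2.le⟩
      have h3 : (‖c₁ s‖ + ‖c₂ s‖) * ‖Z s‖ ≤ K * ‖Z s‖ :=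
        mul_le_mul_of_nonneg_right h2 (norm_nonneg _)
      linarith)
    T ⟨hT, le_rfl⟩
  rw [gronwallBound_ε0_δ0] at hgr
  have hZT : Z T = 0 := norm_le_zero_iff.mp hgr
  intro v
  have h5 := congrArg (fun A : E n →L[ℝ] E n => A v) hZT
  simp only [hZ, hFd, sub_apply, ContinuousLinearMap.comp_apply,
    zero_apply, hgx] at h5
  exact sub_eq_zero.mp h5

end KBR
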